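import Pool.Agent.H12.KP.Targets4

/-!
# NH: the Newton-Hensel lemma for arbitrary polynomials over a henselian dvr
-/

set_option autoImplicit false

namespace Pool.Agent.H40.KP

open Pool.Agent.H12.KP Polynomial TensorProduct

universe u v

/-- a unit plus an element of the maximal ideal is a unit -/
theorem unit_add {A : Type u} [CommRing A] [IsLocalRing A] {x y : A} (hx : IsUnit x)
    (hy : y ∈ IsLocalRing.maximalIdeal A) : IsUnit (x + y) := by
  by_contra h
  have h1 : x + y ∈ IsLocalRing.maximalIdeal A := (IsLocalRing.mem_maximalIdeal _).2 h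
  have h2 : x ∈ IsLocalRing.maximalIdeal A := by
    have := Ideal.sub_mem _ h1 hy
    simpa using this
  exact (IsLocalRing.mem_maximalIdeal _).1 h2 hx

/-- the expansion of order two -/
theorem expand {A : Type u} [CommRing A] (f : A[X]) (a : A) :
    ∃ P : A[X], ∀ z, f.eval (a + z) = f.eval a + f.derivative.eval a * z + z ^ 2 * P.eval z := by
  refine ⟨(taylor a f).divX.divX, fun z => ?_⟩
  have h1 : f.eval (a + z) = (taylor a f).eval z := by
    rw [taylor_eval, add_comm]
  have h2 := congrArg (eval z) (divX_mul_X_add (taylor a f))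
  have h3 := congrArg (eval z) (divX_mul_X_add (taylor a f).divX)
  simp only [eval_add, eval_mul, eval_X, eval_C, taylor_coeff_zero, coeff_divX] at h2 h3
  have h4 : (taylor a f).coeff (0 + 1) = f.derivative.eval a := by
    rw [zero_add, taylor_coeff_one]
  rw [h4] at h3
  rw [h1, ← h2, ← h3]
  ring

/-- a root of `c + ε Y + π Y ^ 2 Q(Y)` -/
theorem root {A : Type u} [CommRing A] [HenselianLocalRing A] {π ε c : A}
    (hπ : π ∈ IsLocalRing.maximalIdeal A) (hε : IsUnit ε) (Q : A[X]) :
    ∃ Y, c + ε * Y + π * Y ^ 2 * Q.eval Y = 0 := by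
  set d := Q.natDegree with hd
  set S : A[X] := ∑ i ∈ Finset.range (d + 1), C (c ^ (i + 1) * Q.coeff i) * X ^ (d - i) with hS
  have hdeg : degree (C ε * X ^ (d + 1) + C π * S) < ((d + 2 : ℕ) : WithBot ℕ) := by
    rw [degree_lt_iff_coeff_zero]
    intro m hm
    rw [coeff_add, coeff_C_mul, coeff_C_mul, coeff_X_pow, if_neg (by omega), hS,
      finsetSum_coeff, Finset.sum_eq_zero, mul_zero, mul_zero, add_zero]
    intro i _
    rw [coeff_C_mul, coeff_X_pow, if_neg (by omega), mul_zero]
  have hmon : Monic (X ^ (d + 2) + (C ε * X ^ (d + 1) + C π * S)) := monic_X_pow_add hdeg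
  have h1 : eval (-ε) (X ^ (d + 2) + (C ε * X ^ (d + 1) + C π * S)) ∈
      IsLocalRing.maximalIdeal A := by
    have : eval (-ε) (X ^ (d + 2) + (C ε * X ^ (d + 1) + C π * S)) = π * S.eval (-ε) := by
      simp only [eval_add, eval_mul, eval_pow, eval_X, eval_C]
      ring
    rw [this]
    exact Ideal.mul_mem_right _ _ hπ
  have h2 : IsUnit (eval (-ε) (derivative (X ^ (d + 2) + (C ε * X ^ (d + 1) + C π * S)))) := by
    have : eval (-ε) (derivative (X ^ (d + 2) + (C ε * X ^ (d + 1) + C π * S))) =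
        (-ε) ^ (d + 1) + π * (derivative S).eval (-ε) := by
      simp only [derivative_add, derivative_mul, derivative_X_pow, derivative_C, zero_mul,
        zero_add, eval_add, eval_mul, eval_pow, eval_X, eval_C]
      simp only [Nat.add_sub_cancel, show d + 2 - 1 = d + 1 by omega]
      push_cast
      ring
    rw [this]
    exact unit_add (hε.neg.pow _) (Ideal.mul_mem_right _ _ hπ)
  obtain ⟨U, hU, hUε⟩ := HenselianLocalRing.is_henselian _ hmon (-ε) h1 h2
  have hUu : IsUnit U := by
    have : U = -ε + (U - -ε) := by ring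
    rw [this]
    exact unit_add hε.neg hUε
  obtain ⟨V, hV⟩ := hUu.exists_right_inv
  refine ⟨c * V, ?_⟩
  have h3 : U ^ (d + 2) * (c + ε * (c * V) + π * (c * V) ^ 2 * Q.eval (c * V)) =
      c * eval U (X ^ (d + 2) + (C ε * X ^ (d + 1) + C π * S)) := by
    have h4 : S.eval U = ∑ i ∈ Finset.range (d + 1), c ^ (i + 1) * Q.coeff i * U ^ (d - i) := by
      rw [hS, eval_finsetSum]
      refine Finset.sum_congr rfl fun i _ => ?_
      simp only [eval_mul, eval_C, eval_pow, eval_X]
    have h5 : U ^ (d + 2) * ((c * V) ^ 2 * Q.eval (c * V)) = c * S.eval U := by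
      rw [h4, eval_eq_sum_range, Finset.mul_sum, Finset.mul_sum, Finset.mul_sum]
      refine Finset.sum_congr rfl fun i hi => ?_
      have hi' : i ≤ d := Nat.lt_succ_iff.1 (Finset.mem_range.1 hi)
      have h6 : U ^ (d + 2) = U ^ (d - i) * U ^ (i + 2) := by
        rw [← pow_add]
        congr 1
        omega
      have h7 : U ^ (i + 2) * V ^ (i + 2) = 1 := by rw [← mul_pow, hV, one_pow]
      calc U ^ (d + 2) * ((c * V) ^ 2 * (Q.coeff i * (c * V) ^ i))
          = U ^ (d - i) * (U ^ (i + 2) * V ^ (i + 2)) * (c ^ (i + 2) * Q.coeff i) := by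
            rw [h6]; ring
        _ = c * (c ^ (i + 1) * Q.coeff i * U ^ (d - i)) := by rw [h7]; ring
    have h8 : U ^ (d + 2) * V = U ^ (d + 1) := by
      rw [pow_succ, mul_assoc, hV, mul_one]
    simp only [eval_add, eval_mul, eval_pow, eval_X, eval_C]
    linear_combination (ε * c) * h8 + π * h5
  rw [show eval U (X ^ (d + 2) + (C ε * X ^ (d + 1) + C π * S)) = 0 from hU, mul_zero] at h3
  exact (hUu.pow (d + 2)).mul_right_eq_zero.1 h3

theorem pf_NH : S_NH.{u} := by
  intro A _ _ _ _ π hπ f a0 ε m k hk hf hε hf'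
  obtain ⟨c, hc⟩ := hf
  obtain ⟨P, hP⟩ := expand f a0
  have hπm : π ∈ IsLocalRing.maximalIdeal A := (IsLocalRing.mem_maximalIdeal _).2 hπ.not_isUnit
  obtain ⟨Y, hY⟩ := root (c := c) hπm hε
    (C (π ^ (k - 2 * m - 1)) * P.comp (C (π ^ (k - m)) * X))
  refine ⟨a0 + π ^ (k - m) * Y, ?_, ⟨Y, by ring⟩⟩
  rw [hP, hc, hf']
  simp only [eval_mul, eval_C, eval_comp, eval_X] at hY
  have h1 : π ^ m * π ^ (k - m) = π ^ k := by
    rw [← pow_add]
    congr 1
    omega
  have h2 : (π ^ (k - m)) ^ 2 = π ^ k * π * π ^ (k - 2 * m - 1) := by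
    rw [← pow_mul, mul_assoc, ← pow_succ', ← pow_add]
    congr 1
    omega
  calc π ^ k * c + ε * π ^ m * (π ^ (k - m) * Y) +
        (π ^ (k - m) * Y) ^ 2 * eval (π ^ (k - m) * Y) P
      = π ^ k * c + ε * (π ^ m * π ^ (k - m)) * Y +
        (π ^ (k - m)) ^ 2 * Y ^ 2 * eval (π ^ (k - m) * Y) P := by ring
    _ = π ^ k * (c + ε * Y + π * Y ^ 2 *
          (π ^ (k - 2 * m - 1) * eval (π ^ (k - m) * Y) P)) := by
        rw [h1, h2]
        ring
    _ = 0 := by rw [hY, mul_zero]

end Pool.Agent.H40.KP
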